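import Pool.Agent.W434.BW.StmA

/-! Project BW: the absorption theorem. -/

set_option autoImplicit false

namespace Pool.Agent.W922.BW

open Pool.Agent.W434.BW

/-- any finite set has a common neighbour -/
theorem common (hZ : S_Z) (hp : S_prodAF) {Ω : Type} {ar : Ω → ℕ} (u : Tm ar (Fin 3))
    {X Y : Type} [Finite X] [Finite Y] (a : Alg ar X) (b : Alg ar Y) (R : X → Y → Prop)
    (ha : Nice u a) (hA : AF a) (hR : Rel a b R) (hS : ∀ x, ∃ y, R x y)
    (hpair : ∀ x x', ∃ y, R x y ∧ R x' y) (x₀ : X) :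
    ∀ (n : ℕ) (F : Finset X), F.card = n → ∃ y, ∀ x ∈ F, R x y := by
  classical
  intro n
  induction n using Nat.strong_induction_on with
  | _ n ih =>
    intro F hF
    rcases F.eq_empty_or_nonempty with hE | ⟨p, hpF⟩
    · subst hE
      obtain ⟨y, _⟩ := hS x₀
      exact ⟨y, fun x hx => absurd hx (Finset.notMem_empty _)⟩
    rcases (F.erase p).eq_empty_or_nonempty with hE | ⟨p', hp'F⟩
    · obtain ⟨y, hy⟩ := hS p
      refine ⟨y, fun x hx => ?_⟩
      have : x = p := by
        by_contra hne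
        have : x ∈ F.erase p := Finset.mem_erase.2 ⟨hne, hx⟩
        rw [hE] at this
        exact absurd this (Finset.notMem_empty _)
      rw [this]
      exact hy
    obtain ⟨G, hG⟩ : ∃ G, G = (F.erase p).erase p' := ⟨_, rfl⟩
    have hcov : ∀ x ∈ F, x = p ∨ x = p' ∨ x ∈ G := by
      intro x hx
      by_cases h1 : x = p
      · exact Or.inl h1
      by_cases h2 : x = p'
      · exact Or.inr (Or.inl h2)
      right; right
      rw [hG, Finset.mem_erase, Finset.mem_erase]
      exact ⟨h2, h1, hx⟩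
    have hGc : G.card + 2 = n := by
      have h1 := Finset.card_erase_of_mem hpF
      have h2 := Finset.card_erase_of_mem hp'F
      rw [← hG] at h2
      have h3 : 0 < (F.erase p).card := Finset.card_pos.2 ⟨p', hp'F⟩
      have h4 : 0 < F.card := Finset.card_pos.2 ⟨p, hpF⟩
      omega
    rcases G.eq_empty_or_nonempty with hE | ⟨g, hgG⟩
    · obtain ⟨y, hy1, hy2⟩ := hpair p p'
      refine ⟨y, fun x hx => ?_⟩
      rcases hcov x hx with rfl | rfl | h
      · exact hy1
      · exact hy2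
      · rw [hE] at h
        exact absurd h (Finset.notMem_empty _)
    -- common neighbours of `insert x G`
    have hins : ∀ x, ∃ y, (∀ g ∈ G, R g y) ∧ R x y := by
      intro x
      obtain ⟨y, hy⟩ := ih (insert x G).card (by
        have := Finset.card_insert_le x G
        omega) (insert x G) rfl
      exact ⟨y, fun g hg => hy g (Finset.mem_insert_of_mem hg), hy x (Finset.mem_insert_self _ _)⟩
    by_cases hpp : ∃ y, (∀ g ∈ G, R g y) ∧ R p y ∧ R p' y
    · obtain ⟨y, hy1, hy2, hy3⟩ := hpp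
      refine ⟨y, fun x hx => ?_⟩
      rcases hcov x hx with rfl | rfl | h
      · exact hy2
      · exact hy3
      · exact hy1 x h
    exfalso
    let S : X → X → Prop := fun x x' => ∃ y, (∀ g ∈ G, R g y) ∧ R x y ∧ R x' y
    have hSR : Rel a a S := by
      intro ω x x' hxx
      choose y hy using hxx
      refine ⟨b ω y, fun g hg => ?_, hR ω x y (fun i => (hy i).2.1), hR ω x' y (fun i => (hy i).2.2)⟩
      have := hR ω (fun _ => g) y (fun i => (hy i).1 g hg)
      rwa [ha.1] at this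
    have hSs : ∀ x, ∃ x', S x x' := by
      intro x
      obtain ⟨y, hy1, hy2⟩ := hins x
      exact ⟨x, y, hy1, hy2, hy2⟩
    obtain ⟨h1, h2⟩ := hZ Ω ar u X X a a S ha ha hSR hSs (hp.2.2 Ω ar X a hA)
    have hne : ({x | ∀ y, S x y} : Set X).Nonempty := by
      refine ⟨g, fun x' => ?_⟩
      obtain ⟨y, hy1, hy2⟩ := hins x'
      exact ⟨y, hy1, hy1 g hgG, hy2⟩
    have huniv := hA _ h1 hne h2
    have hpm : p ∈ ({x | ∀ y, S x y} : Set X) := by
      rw [huniv]
      exact Set.mem_univ _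
    exact hpp (hpm p')

theorem stepA (hZ : S_Z) (hp : S_prodAF) {Ω : Type} {ar : Ω → ℕ} (u : Tm ar (Fin 3))
    {X Y : Type} [Finite X] [Finite Y] (a : Alg ar X) (b : Alg ar Y) (R : X → Y → Prop)
    (ha : Nice u a) (hb : Nice u b) (hA : AF a) (hB : AF b) (hR : Rel a b R) (hS : SD R)
    (hpair : ∀ x x', ∃ y, R x y ∧ R x' y) : ∀ x y, R x y := by
  classical
  intro x₀ y₁
  have := Fintype.ofFinite X
  obtain ⟨y₀, hy₀⟩ := common hZ hp u a b R ha hA hR hS.1 hpair x₀ _ (Finset.univ : Finset X) rfl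
  obtain ⟨h1, h2⟩ := hZ Ω ar u Y X b a (fun y x => R x y) hb ha
    (fun ω y x h => hR ω x y h) hS.2 (hp.2.2 Ω ar X a hA)
  have hne : ({y | ∀ x, R x y} : Set Y).Nonempty := ⟨y₀, fun x => hy₀ x (Finset.mem_univ x)⟩
  have huniv := hB _ h1 hne h2
  have hm : y₁ ∈ ({y | ∀ x, R x y} : Set Y) := by
    rw [huniv]
    exact Set.mem_univ _
  exact hm x₀

/-- iterated doubling -/
def dbl {X : Type} (S : X → X → Prop) : ℕ → X → X → Prop
  | 0 => S
  | j + 1 => fun x z => ∃ y, dbl S j x y ∧ dbl S j y z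

theorem dbl_refl {X : Type} {S : X → X → Prop} (h : ∀ x, S x x) : ∀ j x, dbl S j x x
  | 0, x => h x
  | j + 1, x => ⟨x, dbl_refl h j x, dbl_refl h j x⟩

theorem dbl_symm {X : Type} {S : X → X → Prop} (h : ∀ x y, S x y → S y x) :
    ∀ j x y, dbl S j x y → dbl S j y x
  | 0, x, y, hxy => h x y hxy
  | j + 1, x, y, ⟨z, h1, h2⟩ => ⟨z, dbl_symm h j z y h2, dbl_symm h j x z h1⟩

theorem dbl_rel {Ω : Type} {ar : Ω → ℕ} {X : Type} {a : Alg ar X} {S : X → X → Prop}
    (h : Rel a a S) : ∀ j, Rel a a (dbl S j)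
  | 0 => h
  | j + 1 => by
    intro ω x z hxz
    choose y hy using hxz
    exact ⟨a ω y, dbl_rel h j ω x y (fun i => (hy i).1), dbl_rel h j ω y z (fun i => (hy i).2)⟩

theorem dbl_mono {X : Type} {S : X → X → Prop} (h : ∀ x, S x x) {j k : ℕ} (hjk : j ≤ k) :
    ∀ x y, dbl S j x y → dbl S k x y := by
  induction hjk with
  | refl => exact fun x y hxy => hxy
  | step _ ih => exact fun x y hxy => ⟨x, dbl_refl h _ x, ih x y hxy⟩

/-- The absorption theorem. -/
theorem abs (hZ : S_Z) (hp : S_prodAF) : S_abs := by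
  intro Ω ar u X Y _ _ a b R ha hb hA hB hR hS hL
  let S : X → X → Prop := fun x x' => ∃ y, R x y ∧ R x' y
  have hSR : Rel a a S := by
    intro ω x x' hxx
    choose y hy using hxx
    exact ⟨b ω y, hR ω x y (fun i => (hy i).1), hR ω x' y (fun i => (hy i).2)⟩
  have hSr : ∀ x, S x x := by
    intro x
    obtain ⟨y, hy⟩ := hS.1 x
    exact ⟨y, hy, hy⟩
  have hSs : ∀ x y, S x y → S y x := fun x y ⟨z, h1, h2⟩ => ⟨z, h2, h1⟩
  -- some iterate is full
  have hex : ∀ x x', ∃ j, dbl S j x x' := by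
    intro x x'
    induction hL x x' with
    | refl => exact ⟨0, hSr x⟩
    | tail _ hbc ih =>
      obtain ⟨j, hj⟩ := ih
      exact ⟨j + 1, _, hj, dbl_mono hSr (Nat.zero_le j) _ _ hbc⟩
  choose f hf using hex
  obtain ⟨J, hJ⟩ := (Set.finite_range (fun p : X × X => f p.1 p.2)).bddAbove
  have hfull : ∀ x x', dbl S J x x' := fun x x' =>
    dbl_mono hSr (hJ ⟨(x, x'), rfl⟩) _ _ (hf x x')
  -- going down
  have hdown : ∀ j, (∀ x x', dbl S j x x') → ∀ x x', S x x' := by
    intro j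
    induction j with
    | zero => exact fun h => h
    | succ j ih =>
      intro h
      apply ih
      refine stepA hZ hp u a a (dbl S j) ha ha hA hA (dbl_rel hSR j)
        ⟨fun x => ⟨x, dbl_refl hSr j x⟩, fun x => ⟨x, dbl_refl hSr j x⟩⟩ ?_
      intro x x'
      obtain ⟨y, h1, h2⟩ := h x x'
      exact ⟨y, h1, dbl_symm hSs j _ _ h2⟩
  exact stepA hZ hp u a b R ha hb hA hB hR hS (hdown J hfull)

end Pool.Agent.W922.BW
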